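import Pool.Agent.U209.BX.Asm

/-!
# A bounded kernel whose Bergman space extremal function is not in `BMOA` (Q1 of MP_7d928b_an)

For `p = 4/3`, `q = p/(p-1) = 4` there is a nonzero bounded kernel `k ∈ A^q` whose `A^p` extremal
function is not in `BMOA`.
-/

set_option autoImplicit false

namespace Pool.Agent.Results.MP_7d928b_an.BoundedKernel

open Complex Metric Set Filter Topology MeasureTheory ComplexConjugate

/-- area measure on the unit disc -/
noncomputable def dA : Measure ℂ := volume.restrict (ball (0:ℂ) 1)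

/-- the Bergman space `A^r`: `f` is analytic in the disc and `∫ |f|^r dA < ∞` -/
def InBergman (r : ℝ) (f : ℂ → ℂ) : Prop :=
  DifferentiableOn ℂ f (ball 0 1) ∧ Integrable (fun z => ‖f z‖ ^ r) dA

/-- the norm of `A^r` -/
noncomputable def bergmanNorm (r : ℝ) (f : ℂ → ℂ) : ℝ := (∫ z, ‖f z‖ ^ r ∂dA) ^ (1 / r)

/-- the functional `f ↦ ∫ f k̄ dA` with kernel `k` -/
noncomputable def functional (k f : ℂ → ℂ) : ℂ := ∫ z, f z * conj (k z) ∂dA

/-- `F` is the `A^p` extremal function for the kernel `k`: it maximises `Re ∫ f k̄ dA` over all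
`f ∈ A^p` of norm one -/
def IsExtremal (p : ℝ) (k F : ℂ → ℂ) : Prop :=
  InBergman p F ∧ bergmanNorm p F = 1 ∧
    ∀ f, InBergman p f → bergmanNorm p f = 1 → (functional k f).re ≤ (functional k F).re

/-- `b`, a function of the angle, is the boundary function of `k`: it is `2π`-periodic, square
integrable over a period, and `k(re^{iθ}) → b(θ)` in `L²` as `r → 1⁻` -/
structure IsBoundaryFunction (k : ℂ → ℂ) (b : ℝ → ℂ) : Prop where
  periodic : Function.Periodic b (2 * Real.pi)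
  memLp : MemLp b 2 (volume.restrict (Ioc 0 (2 * Real.pi)))
  lim : Tendsto (fun r : ℝ => ∫ θ in (0:ℝ)..(2 * Real.pi),
    ‖k (r * exp (θ * I)) - b θ‖ ^ 2) (𝓝[<] 1) (𝓝 0)

/-- the mean of `b` over the arc `{e^{iθ} : α < θ < β}` -/
noncomputable def arcMean (b : ℝ → ℂ) (α β : ℝ) : ℂ := (((β - α)⁻¹ : ℝ) : ℂ) * ∫ θ in α..β, b θ

/-- `b` (a `2π`-periodic function of the angle) has bounded mean oscillation on the unit circle -/
def HasBoundedMeanOscillation (b : ℝ → ℂ) : Prop :=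
  IntervalIntegrable b volume 0 (2 * Real.pi) ∧
  ∃ C : ℝ, ∀ α β : ℝ, α < β → β - α ≤ 2 * Real.pi →
    (β - α)⁻¹ * ∫ θ in α..β, ‖b θ - arcMean b α β‖ ≤ C

/-- `BMOA`: functions of the Hardy space `H²` whose boundary values have bounded mean
oscillation -/
def InBMOA (k : ℂ → ℂ) : Prop :=
  DifferentiableOn ℂ k (ball 0 1) ∧
  (∃ C : ℝ, ∀ r : ℝ, 0 < r → r < 1 →
    ∫ θ in (0:ℝ)..(2 * Real.pi), ‖k (r * exp (θ * I))‖ ^ 2 ≤ C) ∧
  ∃ b : ℝ → ℂ, IsBoundaryFunction k b ∧ HasBoundedMeanOscillation b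

/-- **Negative answer to Q1.** For `p = 4/3` and `q = p/(p-1) = 4` there is a nonzero bounded kernel
`k ∈ A^q` whose `A^p` extremal function `F` is not in `BMOA`. -/
theorem result : ∃ p q : ℝ, p = 4 / 3 ∧ q = p / (p - 1) ∧ ∃ k F : ℂ → ℂ,
    InBergman q k ∧ (∃ z ∈ ball (0:ℂ) 1, k z ≠ 0) ∧
    (∃ M : ℝ, ∀ z ∈ ball (0:ℂ) 1, ‖k z‖ ≤ M) ∧ IsExtremal p k F ∧ ¬ InBMOA F := by
  obtain ⟨k, F, h1, h2, h3, h4, h5⟩ := U209.BX.main
  refine ⟨4 / 3, 4, rfl, by norm_num, k, F, h1, h2, h4, h3, ?_⟩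
  rintro ⟨hd, hb, b, hB, hO⟩
  exact h5 ⟨hd, hb, b, ⟨hB.periodic, hB.memLp, hB.lim⟩, hO⟩

end Pool.Agent.Results.MP_7d928b_an.BoundedKernel
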